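import Mathlib
import Pool.Agent.P.MP_c8d2d2_an.Main

set_option autoImplicit false

namespace Pool.Agent.Results.MP_c8d2d2_an.CyclicMinimizes

open Finset

/-- The periodic Green function of `-d²/dx²` on `[0,1]`. -/
noncomputable def G (x y : ℝ) : ℝ := 1 / 2 * |x - y| ^ 2 - 1 / 2 * |x - y| + 1 / 12

/-- `i 1, …, i (3n)` is an arrangement (each of the three types occurs exactly `n` times) and
`i 0 = i (3n)`.  The types `1, 2, 3` (A, B, C) are the elements `0, 1, 2` of `Fin 3`. -/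
def IsArrangement (n : ℕ) (i : ℕ → Fin 3) : Prop :=
  i 0 = i (3 * n) ∧ ∀ t : Fin 3, ((Icc 1 (3 * n)).filter (fun k => i k = t)).card = n

/-- The centres: `x 0 = 0`, `x k = x (k-1) + (ω (i (k-1)) + ω (i k)) / (2n)`. -/
noncomputable def centre (n : ℕ) (ω : Fin 3 → ℝ) (i : ℕ → Fin 3) : ℕ → ℝ
  | 0 => 0
  | k + 1 => centre n ω i k + (ω (i k) + ω (i (k + 1))) / (2 * (n : ℝ))

/-- The energy `U = (1/2) ∑_{k,m=1}^{3n} f (i k) (i m) G (x k) (x m)`. -/
noncomputable def energy (n : ℕ) (ω : Fin 3 → ℝ) (f : Matrix (Fin 3) (Fin 3) ℝ)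
    (i : ℕ → Fin 3) : ℝ :=
  1 / 2 * ∑ k ∈ Icc 1 (3 * n), ∑ m ∈ Icc 1 (3 * n),
    f (i k) (i m) * G (centre n ω i k) (centre n ω i m)

/-- The cyclic arrangement ABC⋯ABC: balls `1, 2, 3, 4, …` have types `0, 1, 2, 0, …`. -/
def cyclic (k : ℕ) : Fin 3 := Fin.ofNat 3 (k + 2)

private lemma cyclic_cases (k : ℕ) :
    (k % 3 = 0 ∧ cyclic (k + 1) = 0) ∨ (k % 3 = 1 ∧ cyclic (k + 1) = 1) ∨
      (k % 3 = 2 ∧ cyclic (k + 1) = 2) := by
  have h : k % 3 = 0 ∨ k % 3 = 1 ∨ k % 3 = 2 := by omega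
  rcases h with h | h | h
  · exact Or.inl ⟨h, Fin.ext (by simp only [cyclic, Fin.ofNat]; show (k + 1 + 2) % 3 = 0; omega)⟩
  · exact Or.inr (Or.inl
      ⟨h, Fin.ext (by simp only [cyclic, Fin.ofNat]; show (k + 1 + 2) % 3 = 1; omega)⟩)
  · exact Or.inr (Or.inr
      ⟨h, Fin.ext (by simp only [cyclic, Fin.ofNat]; show (k + 1 + 2) % 3 = 2; omega)⟩)

private lemma cyclic_arr (n : ℕ) : IsArrangement n cyclic := by
  refine ⟨Fin.ext (by simp only [cyclic, Fin.ofNat]; omega), fun t => ?_⟩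
  have h : ∀ m : ℕ, ∑ k ∈ range (3 * m), (if cyclic (k + 1) = t then (1 : ℝ) else 0) = m := by
    intro m
    induction m with
    | zero => simp
    | succ m ih =>
      have e : 3 * (m + 1) = 3 * m + 1 + 1 + 1 := by ring
      rw [e, sum_range_succ, sum_range_succ, sum_range_succ, ih]
      have c0 : cyclic (3 * m + 1) = 0 := by
        rcases cyclic_cases (3 * m) with h | h | h <;> first | exact h.2 | omega
      have c1 : cyclic (3 * m + 1 + 1) = 1 := by
        rcases cyclic_cases (3 * m + 1) with h | h | h <;> first | exact h.2 | omega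
      have c2 : cyclic (3 * m + 1 + 1 + 1) = 2 := by
        rcases cyclic_cases (3 * m + 1 + 1) with h | h | h <;> first | exact h.2 | omega
      rw [c0, c1, c2]
      push_cast
      fin_cases t <;> simp
  have h2 := h n
  rw [← Pool.Agent.P.MP_c8d2d2_an.sum_Icc_one (3 * n)
    (fun k => if cyclic k = t then (1 : ℝ) else 0), sum_boole] at h2
  exact_mod_cast h2

private lemma cyclic_mid (q : Fin 3 → ℝ) (hq : q 0 + q 1 + q 2 = 0) (k : ℕ) :
    ∑ j ∈ range k, q (cyclic (j + 1)) + q (cyclic (k + 1)) / 2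
      = ![q 0 / 2, q 0 + q 1 / 2, q 0 + q 1 + q 2 / 2] (cyclic (k + 1)) := by
  have h : ∀ m : ℕ, (m % 3 = 0 → ∑ j ∈ range m, q (cyclic (j + 1)) = 0) ∧
      (m % 3 = 1 → ∑ j ∈ range m, q (cyclic (j + 1)) = q 0) ∧
      (m % 3 = 2 → ∑ j ∈ range m, q (cyclic (j + 1)) = q 0 + q 1) := by
    intro m
    induction m with
    | zero => simp
    | succ m ih =>
      rw [sum_range_succ]
      rcases cyclic_cases m with h | h | h
      · refine ⟨fun _ => by omega, fun _ => by rw [ih.1 h.1, h.2, zero_add], fun _ => by omega⟩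
      · refine ⟨fun _ => by omega, fun _ => by omega, fun _ => by rw [ih.2.1 h.1, h.2]⟩
      · refine ⟨fun _ => by rw [ih.2.2 h.1, h.2, hq], fun _ => by omega, fun _ => by omega⟩
  rcases cyclic_cases k with hk | hk | hk
  · rw [(h k).1 hk.1, hk.2]; simp
  · rw [(h k).2.1 hk.1, hk.2]; simp
  · rw [(h k).2.2 hk.1, hk.2]; simp

/-- For every `n > 0`, positive weights of sum one and admissible matrix `f` (symmetric positive
semi-definite, annihilating `(1,1,1)`), the cyclic arrangement minimizes the energy. -/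
theorem result (n : ℕ) (hn : 0 < n) (ω : Fin 3 → ℝ) (hω : ∀ t, 0 < ω t)
    (hω1 : ω 0 + ω 1 + ω 2 = 1) (f : Matrix (Fin 3) (Fin 3) ℝ) (hf : f.PosSemidef)
    (hf1 : f.mulVec (fun _ => 1) = 0) :
    IsArrangement n cyclic ∧
      ∀ i : ℕ → Fin 3, IsArrangement n i → energy n ω f cyclic ≤ energy n ω f i := by
  refine ⟨cyclic_arr n, fun i hi => ?_⟩
  have hc := cyclic_arr n
  have key := Pool.Agent.P.MP_c8d2d2_an.compare (n : ℝ) (by exact_mod_cast hn) ω
    (fun t => (hω t).le) hω1 f hf hf1 (3 * n) i (centre n ω i) hi.1 (fun _ => rfl)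
    (Pool.Agent.P.MP_c8d2d2_an.sum_types n (3 * n) i hi.2)
    cyclic (centre n ω cyclic) hc.1 (fun _ => rfl)
    (Pool.Agent.P.MP_c8d2d2_an.sum_types n (3 * n) cyclic hc.2) cyclic_mid
  unfold energy G
  simp only [Pool.Agent.P.MP_c8d2d2_an.sum_Icc_one]
  linarith

end Pool.Agent.Results.MP_c8d2d2_an.CyclicMinimizes
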